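import Pool.Agent.Helper22.G4.Base

/-! # G4-R2: the slopes -/

namespace Pool.Agent.Helper39.G4
open Pool.Agent.Helper22.G4

/-- the values at the even positions. -/
noncomputable def gExt (g : ℕ → ℝ) (K : ℕ) (m : ℕ) : ℝ :=
  if m < 2 then g 0 - 2 + m
  else if m < K + 2 then g (m - 2)
  else g (K - 1) + (m - K - 1)

theorem gExt_strictMono {g : ℕ → ℝ} {K : ℕ} (hK : 0 < K) (hg : ∀ l, l + 1 < K → g l < g (l + 1)) :
    StrictMono (gExt g K) := by
  refine strictMono_nat_of_lt_succ fun m => ?_
  unfold gExt
  rcases Nat.lt_or_ge m 2 with h | h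
  · rw [if_pos h]
    rcases Nat.lt_or_ge (m + 1) 2 with h' | h'
    · rw [if_pos h']
      push_cast
      linarith
    · have hm : m = 1 := by omega
      subst hm
      rw [if_neg (by omega), if_pos (by omega)]
      norm_num
      linarith
  · rw [if_neg (by omega), if_neg (by omega : ¬ m + 1 < 2)]
    rcases Nat.lt_or_ge m (K + 2) with h' | h'
    · rw [if_pos h']
      rcases Nat.lt_or_ge (m + 1) (K + 2) with h'' | h''
      · rw [if_pos h'']
        have h1 := hg (m - 2) (by omega)
        have h2 : m - 2 + 1 = m + 1 - 2 := by omega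
        rw [h2] at h1
        exact h1
      · rw [if_neg (by omega)]
        have h1 : m - 2 = K - 1 := by omega
        have h2 : (m : ℝ) = K + 1 := by
          have : m = K + 1 := by omega
          rw [this]
          push_cast
          ring
        rw [h1]
        push_cast
        rw [h2]
        linarith
    · rw [if_neg (by omega), if_neg (by omega)]
      push_cast
      linarith

/-- a strictly increasing sequence with prescribed values at the positions `2 l + 4`. -/
theorem exists_slopes {g : ℕ → ℝ} {K : ℕ} (hK : 0 < K) (hg : ∀ l, l + 1 < K → g l < g (l + 1)) :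
    ∃ al : ℕ → ℝ, StrictMono al ∧ ∀ l < K, al (pos l) = g l := by
  have hG := gExt_strictMono hK hg
  refine ⟨fun n => (gExt g K (n / 2) + gExt g K ((n + 1) / 2)) / 2, ?_, ?_⟩
  · refine strictMono_nat_of_lt_succ fun n => ?_
    have h1 : (n + 1 + 1) / 2 = n / 2 + 1 := by omega
    have h2 := hG (Nat.lt_succ_self (n / 2))
    simp only [h1]
    simp only [Nat.succ_eq_add_one] at h2
    linarith
  · intro l hl
    have h1 : pos l / 2 = l + 2 := by
      unfold pos
      omega
    have h2 : (pos l + 1) / 2 = l + 2 := by
      unfold pos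
      omega
    simp only [h1, h2, gExt]
    rw [if_neg (by omega), if_pos (by omega), Nat.add_sub_cancel]
    ring

/-- G4-R2 (the slopes). -/
theorem al_exists {I : NF} {val : ℕ → ℝ} {β : ℝ} (h0 : val (I.B + 1) = 0) (h1 : val (I.B + 2) = 1)
    (hs : ∀ i j, I.B + 2 ≤ i → i < j → j < I.K → val i < val j)
    (hsβ : ∀ i, I.B + 2 ≤ i → i < I.K → val i < β) (hbβ : ∀ i < I.B, β < val i)
    (hb : ∀ i j, i < j → j < I.B → val i < val j) :
    ∃ al : ℕ → ℝ, (∀ i j, i < j → j ≤ I.N → al i < al j) ∧ al (pos I.B) = 0 ∧
      ∀ l < I.K, l ≠ I.B → al (pos l) = 1 / (β - val l) := by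
  have hKB : I.B + 2 < I.K := by
    unfold NF.K
    omega
  have hβ : 1 < β := by
    rw [← h1]
    exact hsβ _ le_rfl hKB
  have hg : ∀ l, l + 1 < I.K → (if l = I.B then 0 else 1 / (β - val l) : ℝ)
      < if l + 1 = I.B then 0 else 1 / (β - val (l + 1)) := by
    intro l hl
    rcases Nat.lt_trichotomy l I.B with h | h | h
    · rw [if_neg (by omega)]
      have hlb := hbβ l h
      rcases Nat.lt_or_ge (l + 1) I.B with h' | h'
      · rw [if_neg (by omega)]
        have hlb' := hbβ (l + 1) h'
        have hlt := hb l (l + 1) (by omega) h'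
        rw [← neg_lt_neg_iff, ← one_div_neg_eq_neg_one_div, ← one_div_neg_eq_neg_one_div]
        exact one_div_lt_one_div_of_lt (by linarith) (by linarith)
      · rw [if_pos (by omega)]
        exact one_div_neg.2 (by linarith)
    · rw [if_pos h, if_neg (by omega), h, h0]
      exact one_div_pos.2 (by linarith)
    · rw [if_neg (by omega), if_neg (by omega)]
      rcases Nat.lt_or_ge l (I.B + 2) with h' | h'
      · have hl1 : l = I.B + 1 := by omega
        subst hl1
        rw [h0]
        have e : I.B + 1 + 1 = I.B + 2 := by omega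
        rw [e, h1]
        exact one_div_lt_one_div_of_lt (by linarith) (by linarith)
      · have hlt := hs l (l + 1) h' (by omega) hl
        have hlb' := hsβ (l + 1) (by omega) hl
        exact one_div_lt_one_div_of_lt (by linarith) (by linarith)
  obtain ⟨al, hal, hv⟩ := exists_slopes (g := fun l => if l = I.B then 0 else 1 / (β - val l))
    (K := I.K) (by omega) hg
  refine ⟨al, fun i j hij _ => hal hij, ?_, ?_⟩
  · rw [hv I.B (by omega)]
    simp
  · intro l hl hne
    rw [hv l hl]
    simp [hne]

end Pool.Agent.Helper39.G4
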