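import Pool.Agent.Helper76.G4.T3

/-! # G4-T4: the flats of the base polytope are computable in polynomial time -/

namespace Pool.Agent.Helper39.G4

open Pool.Agent.Helper22.G4 Pool.Agent.Helper91.PolyTime Pool.Agent.Helper76.G4

variable {α β γ : Type*} [PEnc α] [PEnc β] [PEnc γ]

theorem ptf_prev {N a s : α → ℕ} (hN : PTF N) (ha : PTF a) (hs : PTF s) :
    PTF fun x => OpD.prev (N x) (a x) (s x) := by
  unfold OpD.prev
  exact PTF.ite (PTF.eq ha (PTF.const 1)) (ptf_Q hN (PTF.const 0) (PTF.const 1))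
    (ptf_F hN hs (PTF.pred ha))

theorem ptf_next {M N a s : α → ℕ} (hM : PTF M) (hN : PTF N) (ha : PTF a) (hs : PTF s) :
    PTF fun x => OpD.next (M x) (N x) (a x) (s x) := by
  unfold OpD.next
  exact PTF.ite (PTF.eq ha hM) (ptf_Q hN ha (PTF.const 0)) (ptf_F hN hs ha)

theorem ptf_l4 {a b c d : α → β} (ha : PTF a) (hb : PTF b) (hc : PTF c) (hd : PTF d) :
    PTF fun x => [a x, b x, c x, d x] :=
  PTF.cons ha (PTF.cons hb (PTF.cons hc (PTF.cons hd (PTF.const []))))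

theorem ptf_l5 {a b c d e : α → β} (ha : PTF a) (hb : PTF b) (hc : PTF c) (hd : PTF d)
    (he : PTF e) : PTF fun x => [a x, b x, c x, d x, e x] :=
  PTF.cons ha (ptf_l4 hb hc hd he)

theorem ptf_l6 {a b c d e f : α → β} (ha : PTF a) (hb : PTF b) (hc : PTF c) (hd : PTF d)
    (he : PTF e) (hf : PTF f) : PTF fun x => [a x, b x, c x, d x, e x, f x] :=
  PTF.cons ha (ptf_l5 hb hc hd he hf)

theorem ptf_flat {a : α → List Vx} {f g : α → Fc} (ha : PTF a) (hf : PTF f) (hg : PTF g) :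
    PTF fun x => ((a x, f x, g x) : Flat Vx Fc) :=
  PTF.pair ha (PTF.pair hf hg)

theorem ptf_squad {M N a i s j : α → ℕ} (hM : PTF M) (hN : PTF N) (ha : PTF a) (hi : PTF i)
    (hs : PTF s) (hj : PTF j) :
    PTF fun x => OpD.squad (M x) (N x) (a x) (i x) (s x) (j x) := by
  unfold OpD.squad
  exact ptf_flat (ptf_l4 (ptf_u (PTF.const 0) (PTF.pred hs) hs) (ptf_u ha hi hs) (ptf_u ha hs hj)
    (ptf_u (PTF.const 0) hs (PTF.succ hs))) (ptf_prev hN ha hs) (ptf_next hM hN ha hs)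

theorem ptf_opFlats {M N : α → ℕ} {d : α → OpD} (hM : PTF M) (hN : PTF N) (hd : PTF d) :
    PTF fun a => (d a).flats (M a) (N a) := by
  have h0 : PTF fun _ : α => (0 : ℕ) := PTF.const 0
  have b1 : PTF fun _ : α => Vx.b1 := PTF.const Vx.b1
  have b2 : PTF fun _ : α => Vx.b2 := PTF.const Vx.b2
  have ha := ptf_pa hd
  have hb := ptf_pb hd
  have hc := ptf_pc hd
  have he := ptf_pd hd
  have hx := ptf_x hd
  have hy := ptf_y hd
  have hz := ptf_z hd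
  have hi := ptf_i hd
  have hv := ptf_v hd
  have hw := ptf_w hd
  have k0 := ptf_g0 hd
  have k1 := ptf_g1 hd
  have k2 := ptf_g2 hd
  have p0 := ptf_p k0
  have p1 := ptf_p k1
  have p2 := ptf_p k2
  have q0 := ptf_q k0
  have q1 := ptf_q k1
  have q2 := ptf_q k2
  unfold OpD.flats
  refine PTF.cons (ptf_flat (ptf_l5 b1 (ptf_u ha hx hN) (ptf_u ha hz hx) (ptf_u ha h0 hz) b2)
    (ptf_Q hN (PTF.pred ha) ha) (ptf_GY hN ha k0)) ?_
  refine PTF.cons (ptf_flat (ptf_l6 b2 (ptf_u hb h0 hy) (ptf_u hb hy hi) (ptf_u hb hi hx)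
    (ptf_u hb hx hN) b1) (ptf_GX hN hb k0) (ptf_GX hN hb k1)) ?_
  refine PTF.cons (ptf_flat (ptf_l5 b1 (ptf_u hc hv hN) (ptf_u hc hy hv) (ptf_u hc h0 hy) b2)
    (ptf_GY hN hc k1) (ptf_GX hN hc k2)) ?_
  refine PTF.cons (ptf_flat (ptf_l4 b2 (ptf_u he h0 hw) (ptf_u he hw hN) b1)
    (ptf_GY hN he k2) (ptf_Q hN he (ptf_nxt hM hd))) ?_
  refine PTF.cons (ptf_squad hM hN ha h0 hz hx) ?_
  refine PTF.cons (ptf_squad hM hN hb h0 hy hi) ?_
  refine PTF.cons (ptf_squad hM hN hb hy hi hx) ?_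
  refine PTF.cons (ptf_squad hM hN hb hi hx hN) ?_
  refine PTF.cons (ptf_squad hM hN hc hy hv hN) ?_
  refine PTF.cons (ptf_squad hM hN he h0 hw hN) ?_
  refine PTF.cons (ptf_flat (ptf_l4 q0 (ptf_u ha h0 hz) (ptf_u hb h0 hy) p0)
    (ptf_Gt hN hb ha k0 h0) (ptf_Gt hN hb ha k0 hy)) ?_
  refine PTF.cons (ptf_flat (ptf_l4 p0 (ptf_u hb hi hx) (ptf_u ha hz hx) q0)
    (ptf_Gt hN hb ha k0 hi) (ptf_Gt hN hb ha k0 hx)) ?_
  refine PTF.cons (ptf_flat (ptf_l4 q1 (ptf_u hc h0 hy) (ptf_u hb h0 hy) p1)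
    (ptf_Gt hN hb hc k1 h0) (ptf_Gt hN hb hc k1 hy)) ?_
  refine PTF.cons (ptf_flat (ptf_l4 p1 (ptf_u hb hy hi) (ptf_u hc hy hv) q1)
    (ptf_Gt hN hb hc k1 hy) (ptf_Gt hN hb hc k1 hi)) ?_
  refine PTF.cons (ptf_flat (ptf_l4 p1 (ptf_u hb hx hN) (ptf_u hc hv hN) q1)
    (ptf_Gt hN hb hc k1 hx) (ptf_Gt hN hb hc k1 hN)) ?_
  refine PTF.cons (ptf_flat (ptf_l4 p2 (ptf_u hc h0 hy) (ptf_u he h0 hw) q2)
    (ptf_Gt hN hc he k2 h0) (ptf_Gt hN hc he k2 hy)) ?_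
  exact PTF.cons (ptf_flat (ptf_l4 q2 (ptf_u he hw hN) (ptf_u hc hv hN) p2)
    (ptf_Gt hN hc he k2 hv) (ptf_Gt hN hc he k2 hN)) (PTF.const [])

theorem ptf_page0 : PTF fun I : NF => I.page0 := by
  have h1 : PTF fun I : NF => (List.range (I.N - 1)).map (fun i => Vx.u 0 (i + 1) (i + 2)) :=
    PTF.map (f := fun (_ : NF) (i : ℕ) => Vx.u 0 (i + 1) (i + 2))
      (PTF.range (PTF.pred (ptf_N PTF.id)))
      (ptf_u (PTF.const 0) (PTF.succ PTF.id.snd) (PTF.succ (PTF.succ PTF.id.snd)))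
  exact ptf_flat (PTF.append h1 (PTF.const [Vx.b1, Vx.b2, Vx.u 0 0 1]))
    (ptf_Q (ptf_N PTF.id) (PTF.const 0) (PTF.const 1))
    (ptf_Q (ptf_N PTF.id) (ptf_M PTF.id) (PTF.const 0))

/-- G4-T4 -/
theorem ptf_flats : PTF fun I : NF => I.data.flats := by
  have h2 : PTF fun I : NF => I.opds.flatMap (OpD.flats I.M I.N) :=
    PTF.flatMap (f := fun (I : NF) (d : OpD) => OpD.flats I.M I.N d) (ptf_opds PTF.id)
      (ptf_opFlats ((ptf_M PTF.id).comp PTF.id.fst) ((ptf_N PTF.id).comp PTF.id.fst) PTF.id.snd)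
  exact PTF.cons ptf_page0 h2

end Pool.Agent.Helper39.G4
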